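import Pool.Agent.H598Z.Drift.Main

set_option autoImplicit false

namespace Pool.Agent.Results.MP_89b2fa_an.BoundedDiscontinuous

open MeasureTheory Metric

/-- `h ∈ C_0^∞(B_R)`: smooth, with compact support contained in the open disc `B_R`. -/
def IsTest (R : ℝ) (h : EuclideanSpace ℝ (Fin 2) → ℝ) : Prop :=
  ContDiff ℝ ((⊤ : ℕ∞) : WithTop ℕ∞) h ∧ HasCompactSupport h ∧ tsupport h ⊆ ball 0 R

/-- `g` is the distributional gradient of `u` in the disc `B_R`. -/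
def IsWeakGradient (R : ℝ) (u : EuclideanSpace ℝ (Fin 2) → ℝ)
    (g : EuclideanSpace ℝ (Fin 2) → EuclideanSpace ℝ (Fin 2)) : Prop :=
  ∀ h, IsTest R h → ∀ i : Fin 2,
    ∫ x in ball 0 R, u x * gradient h x i = - ∫ x in ball 0 R, g x i * h x

/-- `u ∈ W_2^1(B_R)` is a solution of `-Δu + b·∇u = 0` in `B_R`: `u ∈ L_2(B_R)` has a weak
gradient `g ∈ L_2(B_R)` and `∫ g·(∇h + b h) = 0` for all test functions `h`. -/
def IsSolution (R : ℝ) (b : EuclideanSpace ℝ (Fin 2) → EuclideanSpace ℝ (Fin 2))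
    (u : EuclideanSpace ℝ (Fin 2) → ℝ) : Prop :=
  MemLp u 2 (volume.restrict (ball 0 R)) ∧
    ∃ g : EuclideanSpace ℝ (Fin 2) → EuclideanSpace ℝ (Fin 2),
      MemLp g 2 (volume.restrict (ball 0 R)) ∧ IsWeakGradient R u g ∧
        ∀ h, IsTest R h → ∫ x in ball 0 R, inner ℝ (g x) (gradient h x + h x • b x) = 0

/-- A bounded solution with an `L_2` drift in a planar disc need not be continuous. -/
theorem result : ∃ (R : ℝ) (b : EuclideanSpace ℝ (Fin 2) → EuclideanSpace ℝ (Fin 2))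
    (u : EuclideanSpace ℝ (Fin 2) → ℝ), 0 < R ∧ MemLp b 2 (volume.restrict (ball 0 R)) ∧
      IsSolution R b u ∧ MemLp u ⊤ (volume.restrict (ball 0 R)) ∧
        ¬ ∃ c : EuclideanSpace ℝ (Fin 2) → ℝ, ContinuousOn c (ball 0 R) ∧
          u =ᵐ[volume.restrict (ball 0 R)] c := by
  open Pool.Agent.H598Z.Drift in
  refine ⟨1 / 4, bb, uu, by norm_num, bb_two, ⟨uu_two, gg, gg_two, ?_, ?_⟩, uu_top, not_cont⟩
  · rintro h ⟨h1, h2, h3⟩ i
    simp only [Pool.Agent.H598Z.Drift.grad_apply]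
    exact Pool.Agent.H598Z.Drift.weak_grad (h1.of_le (by exact_mod_cast le_top)) h2 h3 i
  · rintro h ⟨h1, h2, h3⟩
    exact Pool.Agent.H598Z.Drift.weak_eq' (h1.of_le (by exact_mod_cast le_top)) h2 h3

end Pool.Agent.Results.MP_89b2fa_an.BoundedDiscontinuous
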